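import Mathlib

/-!
# Ramsey numbers of monotone paths: transitive colourings are strictly weaker for `k = 4`

`K^k_N` is the complete `k`-uniform hypergraph on the ordered vertex set `Fin N`.  A colouring of its
edges with `q` colours is represented by a function `Finset (Fin N) → Fin q`; only its values on
`k`-element sets are ever used.
-/

namespace Pool.Agent.Results.MP_ea5a80_co.TransitiveRamseyLt

/-- The `j`-th edge `{x_j, x_{j+1}, ..., x_{j+k-1}}` (indices starting at `0`) of the monotone path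
with vertices `x_0 < x_1 < ...`. -/
def window {N m : ℕ} (x : Fin m → Fin N) (k j : ℕ) : Finset (Fin N) :=
  (Finset.univ.filter fun t : Fin m => j ≤ t.val ∧ t.val < j + k).image x

/-- The colouring `c` of the edges of `K^k_N` has a monochromatic monotone path of length `n`:
vertices `x_0 < ... < x_{n+k-2}` whose `n` edges `{x_j, ..., x_{j+k-1}}`, `j < n`, all have the same
colour. -/
def HasMonoPath (k n : ℕ) {N q : ℕ} (c : Finset (Fin N) → Fin q) : Prop :=
  ∃ x : Fin (n + k - 1) → Fin N, StrictMono x ∧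
    ∃ i : Fin q, ∀ j < n, c (window x k j) = i

/-- The colouring `c` of the edges of `K^k_N` is transitive: for all vertices `x_0 < ... < x_k`,
whenever `{x_0, ..., x_{k-1}}` and `{x_1, ..., x_k}` both have colour `i`, every `k`-element subset
of `{x_0, ..., x_k}` has colour `i`. -/
def IsTransitive (k : ℕ) {N q : ℕ} (c : Finset (Fin N) → Fin q) : Prop :=
  ∀ x : Fin (k + 1) → Fin N, StrictMono x → ∀ i : Fin q,
    c (window x k 0) = i → c (window x k 1) = i →
      ∀ s : Finset (Fin N), s ⊆ Finset.univ.image x → s.card = k → c s = i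

/-- `N_k(q,n)`: the least `N` such that every `q`-colouring of the edges of `K^k_N` contains a
monochromatic monotone path of length `n`. -/
noncomputable def ramseyAll (k q n : ℕ) : ℕ :=
  sInf {N : ℕ | ∀ c : Finset (Fin N) → Fin q, HasMonoPath k n c}

/-- `N'_k(q,n)`: the least `N` such that every transitive `q`-colouring of the edges of `K^k_N`
contains a monochromatic monotone path of length `n`. -/
noncomputable def ramseyTrans (k q n : ℕ) : ℕ :=
  sInf {N : ℕ | ∀ c : Finset (Fin N) → Fin q, IsTransitive k c → HasMonoPath k n c}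

/-! ## Labels -/

section Labels

variable {N q n : ℕ}

/-- There is a path of length `m` in colour `i` whose last three vertices are `x < y < z`. -/
inductive Reach (c : Finset (Fin N) → Fin q) (i : Fin q) : ℕ → Fin N → Fin N → Fin N → Prop
  | base {x y z : Fin N} : x < y → y < z → Reach c i 0 x y z
  | step {m : ℕ} {w x y z : Fin N} : Reach c i m w x y → y < z → c {w, x, y, z} = i →
      Reach c i (m + 1) x y z

theorem Reach.path {c : Finset (Fin N) → Fin q} {i : Fin q} {m : ℕ} {x y z : Fin N}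
    (h : Reach c i m x y z) :
    ∃ f : ℕ → Fin N, (∀ a b, a < b → b < m + 3 → f a < f b) ∧ f m = x ∧ f (m + 1) = y ∧
      f (m + 2) = z ∧ ∀ j < m, c {f j, f (j + 1), f (j + 2), f (j + 3)} = i := by
  induction h with
  | @base x y z hxy hyz =>
    refine ⟨fun t => if t = 0 then x else if t = 1 then y else z, ?_, ?_, ?_, ?_, ?_⟩
    · intro a b hab hb
      have hb' : b = 1 ∨ b = 2 := by omega
      rcases hb' with rfl | rfl
      · have : a = 0 := by omega
        subst this; simpa using hxy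
      · have : a = 0 ∨ a = 1 := by omega
        rcases this with rfl | rfl
        · simpa using hxy.trans hyz
        · simpa using hyz
    · simp
    · simp
    · simp
    · intro j hj; omega
  | @step m w x y z hr hyz hc ih =>
    obtain ⟨f, hf, h0, h1, h2, hcol⟩ := ih
    refine ⟨fun t => if t < m + 3 then f t else z, ?_, ?_, ?_, ?_, ?_⟩
    · intro a b hab hb
      have ha : a < m + 3 := by omega
      by_cases hb' : b < m + 3
      · simpa [ha, hb'] using hf a b hab hb'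
      · have : f a ≤ y := by
          rw [← h2]
          rcases Nat.lt_or_ge a (m + 2) with h | h
          · exact (hf a (m + 2) h (by omega)).le
          · have : a = m + 2 := by omega
            rw [this]
        simpa [ha, hb'] using this.trans_lt hyz
    · simpa using h1
    · simpa using h2
    · simp
    · intro j hj
      rcases Nat.lt_or_ge j m with h | h
      · have e0 : j < m + 3 := by omega
        have e1 : j + 1 < m + 3 := by omega
        have e2 : j + 2 < m + 3 := by omega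
        have e3 : j + 3 < m + 3 := by omega
        simpa [e0, e1, e2, e3] using hcol j h
      · have : j = m := by omega
        subst this
        simpa [h0, h1, h2] using hc

theorem window_four {M : ℕ} (x : Fin M → Fin N) (j : ℕ) (hj : j + 3 < M) :
    window x 4 j = {x ⟨j, by omega⟩, x ⟨j + 1, by omega⟩, x ⟨j + 2, by omega⟩, x ⟨j + 3, hj⟩} := by
  have : (Finset.univ.filter fun t : Fin M => j ≤ t.val ∧ t.val < j + 4) =
      {⟨j, by omega⟩, ⟨j + 1, by omega⟩, ⟨j + 2, by omega⟩, ⟨j + 3, hj⟩} := by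
    ext t
    simp only [Finset.mem_filter, Finset.mem_univ, true_and, Finset.mem_insert,
      Finset.mem_singleton, Fin.ext_iff]
    omega
  unfold window
  rw [this]
  simp [Finset.image_insert]

theorem Reach.hasMonoPath {c : Finset (Fin N) → Fin q} {i : Fin q} {x y z : Fin N}
    (h : Reach c i n x y z) : HasMonoPath 4 n c := by
  obtain ⟨f, hf, -, -, -, hcol⟩ := h.path
  refine ⟨fun t => f t.val, ?_, i, ?_⟩
  · intro a b hab
    have hb : b.val < n + 4 - 1 := b.isLt
    exact hf a b hab (by omega)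
  · intro j hj
    rw [window_four _ j (by omega)]
    exact hcol j hj

open Classical in
/-- the length of the longest path of colour `i` ending with the triple `x < y < z` -/
noncomputable def len (c : Finset (Fin N) → Fin q) (n : ℕ) (i : Fin q) (x y z : Fin N) : ℕ :=
  Nat.findGreatest (fun m => Reach c i m x y z) (n - 1)

theorem len_lt (c : Finset (Fin N) → Fin q) (hn : 1 ≤ n) (i : Fin q) (x y z : Fin N) :
    len c n i x y z < n := by
  classical
  have : len c n i x y z ≤ n - 1 := by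
    unfold len; exact Nat.findGreatest_le _
  omega

theorem len_lt_len {c : Finset (Fin N) → Fin q} (hn : 1 ≤ n) (hno : ¬ HasMonoPath 4 n c)
    {w x y z : Fin N} (hwx : w < x) (hxy : x < y) (hyz : y < z) :
    len c n (c {w, x, y, z}) w x y < len c n (c {w, x, y, z}) x y z := by
  classical
  set i := c {w, x, y, z} with hi
  have h1 : Reach c i (len c n i w x y) w x y := by
    unfold len
    exact Nat.findGreatest_spec (P := fun m => Reach c i m w x y) (Nat.zero_le _)
      (Reach.base hwx hxy)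
  have h2 : Reach c i (len c n i w x y + 1) x y z := Reach.step h1 hyz hi.symm
  have h3 : len c n i w x y + 1 ≠ n := by
    intro h
    rw [h] at h2
    exact hno h2.hasMonoPath
  have h4 := len_lt c hn i w x y
  have h5 : len c n i w x y + 1 ≤ len c n i x y z := by
    conv_rhs => unfold len
    exact Nat.le_findGreatest (by omega) h2
  omega

/-- the label of a triple, an element of `[n]^q` -/
noncomputable def lab (c : Finset (Fin N) → Fin q) (hn : 1 ≤ n) (x y z : Fin N) : Fin q → Fin n :=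
  fun i => ⟨len c n i x y z, len_lt c hn i x y z⟩

theorem lab_not_le {c : Finset (Fin N) → Fin q} (hn : 1 ≤ n) (hno : ¬ HasMonoPath 4 n c)
    {w x y z : Fin N} (hwx : w < x) (hxy : x < y) (hyz : y < z) :
    ¬ lab c hn x y z ≤ lab c hn w x y := by
  intro h
  have h1 := len_lt_len hn hno hwx hxy hyz
  have h2 := h (c {w, x, y, z})
  have h3 : len c n (c {w, x, y, z}) x y z ≤ len c n (c {w, x, y, z}) w x y := h2
  omega

/-- the down-set of `[n]^q` attached to a pair `y < z` -/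
noncomputable def dd (c : Finset (Fin N) → Fin q) (hn : 1 ≤ n) (y z : Fin N) :
    LowerSet (Fin q → Fin n) where
  carrier := {p | ∃ x, x < y ∧ p ≤ lab c hn x y z}
  lower' := by
    rintro a b hba ⟨x, hx, hax⟩
    exact ⟨x, hx, hba.trans hax⟩

/-- the down-set of down-sets attached to a vertex -/
noncomputable def ddd (c : Finset (Fin N) → Fin q) (hn : 1 ≤ n) (z : Fin N) :
    LowerSet (LowerSet (Fin q → Fin n)) where
  carrier := {p | ∃ y, y < z ∧ p ≤ dd c hn y z}
  lower' := by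
    rintro a b hba ⟨x, hx, hax⟩
    exact ⟨x, hx, hba.trans hax⟩

theorem lab_mem_dd (c : Finset (Fin N) → Fin q) (hn : 1 ≤ n) {x y : Fin N} (z : Fin N)
    (hxy : x < y) : lab c hn x y z ∈ dd c hn y z := ⟨x, hxy, le_rfl⟩

theorem lab_not_mem_dd {c : Finset (Fin N) → Fin q} (hn : 1 ≤ n) (hno : ¬ HasMonoPath 4 n c)
    {x y z : Fin N} (hxy : x < y) (hyz : y < z) : lab c hn x y z ∉ dd c hn x y := by
  rintro ⟨w, hwx, hle⟩
  exact lab_not_le hn hno hwx hxy hyz hle

theorem dd_mem_ddd (c : Finset (Fin N) → Fin q) (hn : 1 ≤ n) {y z : Fin N} (hyz : y < z) :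
    dd c hn y z ∈ ddd c hn z := ⟨y, hyz, le_rfl⟩

theorem dd_not_mem_ddd {c : Finset (Fin N) → Fin q} (hn : 1 ≤ n) (hno : ¬ HasMonoPath 4 n c)
    {y z : Fin N} (hyz : y < z) : dd c hn y z ∉ ddd c hn y := by
  rintro ⟨x, hxy, hle⟩
  exact lab_not_mem_dd hn hno hxy hyz (hle (lab_mem_dd c hn z hxy))

theorem ddd_not_le {c : Finset (Fin N) → Fin q} (hn : 1 ≤ n) (hno : ¬ HasMonoPath 4 n c)
    {y z : Fin N} (hyz : y < z) : ¬ ddd c hn z ≤ ddd c hn y := fun h =>
  dd_not_mem_ddd hn hno hyz (h (dd_mem_ddd c hn hyz))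

theorem ddd_injective {c : Finset (Fin N) → Fin q} (hn : 1 ≤ n) (hno : ¬ HasMonoPath 4 n c) :
    Function.Injective (ddd c hn) := by
  intro y z h
  rcases lt_trichotomy y z with h1 | h1 | h1
  · exact absurd h.ge (ddd_not_le hn hno h1)
  · exact h1
  · exact absurd h.le (ddd_not_le hn hno h1)

end Labels

/-! ## The general colouring on `card` vertices (lower bound for `N_4(q,n)`) -/

section LowerBound

variable {q n : ℕ}

/-- the down-sets of `[n]^q` -/
abbrev P3 (q n : ℕ) := LowerSet (Fin q → Fin n)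

/-- the down-sets of the poset of down-sets of `[n]^q` -/
abbrev P4 (q n : ℕ) := LowerSet (LowerSet (Fin q → Fin n))

theorem exists_linear_order (q n N : ℕ) (hN : N ≤ Nat.card (P4 q n)) :
    ∃ e : Fin N → P4 q n, ∀ i j : Fin N, i < j → ¬ e j ≤ e i := by
  classical
  letI : Fintype (LinearExtension (P4 q n)) :=
    @Fintype.ofFinite _ (inferInstanceAs (Finite (P4 q n)))
  have hcard : Fintype.card (LinearExtension (P4 q n)) = Nat.card (P4 q n) := by
    rw [← Nat.card_eq_fintype_card]; rfl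
  let f := Fintype.orderIsoFinOfCardEq (LinearExtension (P4 q n)) hcard
  refine ⟨fun i => (show P4 q n from f (Fin.castLE hN i)), ?_⟩
  intro i j hij hle
  have h1 : toLinearExtension (show P4 q n from f (Fin.castLE hN j)) ≤
      toLinearExtension (show P4 q n from f (Fin.castLE hN i)) := toLinearExtension.monotone hle
  have h2 : f (Fin.castLE hN j) ≤ f (Fin.castLE hN i) := h1
  rw [f.le_iff_le] at h2
  have h3 : j ≤ i := h2
  exact absurd hij (not_lt.mpr h3)

theorem sorted_quad_unique {N : ℕ} {w x y z w' x' y' z' : Fin N} (h1 : w < x) (h2 : x < y)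
    (h3 : y < z) (h1' : w' < x') (h2' : x' < y') (h3' : y' < z')
    (h : ({w, x, y, z} : Finset (Fin N)) = {w', x', y', z'}) :
    w = w' ∧ x = x' ∧ y = y' ∧ z = z' := by
  have hw : w ∈ ({w', x', y', z'} : Finset (Fin N)) := by rw [← h]; simp
  have hx : x ∈ ({w', x', y', z'} : Finset (Fin N)) := by rw [← h]; simp
  have hy : y ∈ ({w', x', y', z'} : Finset (Fin N)) := by rw [← h]; simp
  have hz : z ∈ ({w', x', y', z'} : Finset (Fin N)) := by rw [← h]; simp
  simp only [Finset.mem_insert, Finset.mem_singleton, Fin.ext_iff] at hw hx hy hz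
  simp only [Fin.lt_def] at h1 h2 h3 h1' h2' h3'
  simp only [Fin.ext_iff]
  omega

theorem exists_colouring (q n N : ℕ) (hq : 1 ≤ q) (hn : 1 ≤ n) (hN : N ≤ Nat.card (P4 q n)) :
    ∃ c : Finset (Fin N) → Fin q, ¬ HasMonoPath 4 n c := by
  classical
  obtain ⟨e, he⟩ := exists_linear_order q n N hN
  haveI : Nonempty (Fin n) := ⟨⟨0, hn⟩⟩
  -- choose an element `u x y` of `e y` outside `e x`
  have hu : ∀ x y : Fin N, ∃ u : P3 q n, x < y → u ∈ e y ∧ u ∉ e x := by
    intro x y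
    by_cases hxy : x < y
    · have h2 : ¬ ((e y : Set (P3 q n)) ⊆ (e x : Set (P3 q n))) := he x y hxy
      rw [Set.not_subset] at h2
      obtain ⟨u, hu1, hu2⟩ := h2
      exact ⟨u, fun _ => ⟨hu1, hu2⟩⟩
    · exact ⟨⊥, fun h => absurd h hxy⟩
  choose u hu using hu
  -- choose an element `v x y z` of `u y z` outside `u x y`
  have hv : ∀ x y z : Fin N, ∃ v : Fin q → Fin n, x < y → y < z → v ∈ u y z ∧ v ∉ u x y := by
    intro x y z
    by_cases hxyz : x < y ∧ y < z
    · obtain ⟨hxy, hyz⟩ := hxyz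
      have h1 : ¬ u y z ≤ u x y := by
        intro hle
        exact (hu y z hyz).2 ((e y).lower hle (hu x y hxy).1)
      have h2 : ¬ ((u y z : Set (Fin q → Fin n)) ⊆ (u x y : Set (Fin q → Fin n))) := h1
      rw [Set.not_subset] at h2
      obtain ⟨v, hv1, hv2⟩ := h2
      exact ⟨v, fun _ _ => ⟨hv1, hv2⟩⟩
    · exact ⟨Classical.arbitrary _, fun h h' => absurd ⟨h, h'⟩ hxyz⟩
  choose v hv using hv
  -- choose the colour of a quadruple
  have hc : ∀ s : Finset (Fin N), ∃ i : Fin q, ∀ w x y z : Fin N, w < x → x < y → y < z →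
      s = {w, x, y, z} → v w x y i < v x y z i := by
    intro s
    by_cases hs : ∃ w x y z : Fin N, w < x ∧ x < y ∧ y < z ∧ s = {w, x, y, z}
    · obtain ⟨w, x, y, z, hwx, hxy, hyz, rfl⟩ := hs
      have h1 : ¬ v x y z ≤ v w x y := by
        intro hle
        exact (hv x y z hxy hyz).2 ((u x y).lower hle (hv w x y hwx hxy).1)
      rw [Pi.le_def, not_forall] at h1
      obtain ⟨i, hi⟩ := h1
      refine ⟨i, ?_⟩
      intro w' x' y' z' hwx' hxy' hyz' heq
      obtain ⟨rfl, rfl, rfl, rfl⟩ := sorted_quad_unique hwx hxy hyz hwx' hxy' hyz' heq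
      exact not_le.mp hi
    · refine ⟨⟨0, hq⟩, ?_⟩
      intro w x y z h1 h2 h3 h4
      exact absurd ⟨w, x, y, z, h1, h2, h3, h4⟩ hs
  choose c hc using hc
  refine ⟨c, ?_⟩
  rintro ⟨x, hx, i, hcol⟩
  -- the `i`-th coordinates along the path
  have hlt : ∀ a b : Fin (n + 4 - 1), a.val < b.val → x a < x b := fun a b h => hx h
  have key : ∀ j, (hj : j ≤ n) →
      j ≤ (v (x ⟨j, by omega⟩) (x ⟨j + 1, by omega⟩) (x ⟨j + 2, by omega⟩) i).val := by
    intro j
    induction j with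
    | zero => intro _; exact Nat.zero_le _
    | succ j ih =>
      intro hj
      have h1 := ih (by omega)
      have h2 := hcol j (by omega)
      rw [window_four x j (by omega)] at h2
      have h3 := hc {x ⟨j, by omega⟩, x ⟨j + 1, by omega⟩, x ⟨j + 2, by omega⟩,
        x ⟨j + 3, by omega⟩} _ _ _ _ (hlt ⟨j, by omega⟩ ⟨j + 1, by omega⟩ (Nat.lt_succ_self _))
        (hlt ⟨j + 1, by omega⟩ ⟨j + 2, by omega⟩ (Nat.lt_succ_self _))
        (hlt ⟨j + 2, by omega⟩ ⟨j + 3, by omega⟩ (Nat.lt_succ_self _)) rfl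
      rw [h2] at h3
      have h4 := Fin.lt_def.mp h3
      exact Nat.succ_le_of_lt (lt_of_le_of_lt h1 h4)
  have h := key n le_rfl
  have h' := (v (x ⟨n, by omega⟩) (x ⟨n + 1, by omega⟩) (x ⟨n + 2, by omega⟩) i).isLt
  omega

/-- `N_4(q,n) > |J(J([n]^q))|`. -/
theorem card_lt_ramseyAll (q n : ℕ) (hq : 1 ≤ q) (hn : 1 ≤ n) :
    Nat.card (P4 q n) < ramseyAll 4 q n := by
  have hne : {N : ℕ | ∀ c : Finset (Fin N) → Fin q, HasMonoPath 4 n c}.Nonempty := by
    refine ⟨Nat.card (P4 q n) + 1, ?_⟩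
    intro c
    by_contra hno
    have h1 := ddd_injective hn hno
    have h2 : Nat.card (Fin (Nat.card (P4 q n) + 1)) ≤ Nat.card (P4 q n) :=
      Nat.card_le_card_of_injective _ h1
    rw [Nat.card_eq_fintype_card (α := Fin (Nat.card (P4 q n) + 1)), Fintype.card_fin] at h2
    omega
  have h1 := Nat.sInf_mem hne
  by_contra hlt
  rw [not_lt] at hlt
  obtain ⟨c, hc⟩ := exists_colouring q n (ramseyAll 4 q n) hq hn hlt
  exact hc (h1 c)

end LowerBound

/-! ## The contradiction for transitive colourings on `card` vertices -/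

section Core

variable {p r : ℕ}

/-- `f` lies below the point `(a, b, 0, ..., 0)` of `[n]^q`, where `q = p + 2`, `n = r + 3` -/
def Bx (f : Fin (p + 2) → Fin (r + 3)) (a b : ℕ) : Prop :=
  (f 0).val ≤ a ∧ (f 1).val ≤ b ∧ ∀ i : Fin (p + 2), 2 ≤ i.val → (f i).val = 0

/-- the box below `(a, b, 0, ..., 0)` -/
def bx (a b : ℕ) : P3 (p + 2) (r + 3) where
  carrier := {f | Bx f a b}
  lower' := by
    rintro f g hgf ⟨h0, h1, h2⟩
    refine ⟨le_trans (hgf 0) h0, le_trans (hgf 1) h1, fun i hi => ?_⟩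
    have h3 : (g i).val ≤ (f i).val := hgf i
    have h4 := h2 i hi
    omega

theorem mem_bx {f : Fin (p + 2) → Fin (r + 3)} {a b : ℕ} : f ∈ bx (p := p) (r := r) a b ↔ Bx f a b :=
  Iff.rfl

theorem bx_mono {a b a' b' : ℕ} (ha : a ≤ a') (hb : b ≤ b') :
    bx (p := p) (r := r) a b ≤ bx a' b' := by
  rintro f ⟨h0, h1, h2⟩
  exact ⟨h0.trans ha, h1.trans hb, h2⟩

/-- the point `(a, b, 0, ..., 0)` -/
def pt (a b : Fin 3) : Fin (p + 2) → Fin (r + 3) :=
  fun i => if i.val = 0 then Fin.castLE (by omega) a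
    else if i.val = 1 then Fin.castLE (by omega) b else 0

theorem bx_pt (a b : Fin 3) (a' b' : ℕ) :
    Bx (pt (p := p) (r := r) a b) a' b' ↔ a.val ≤ a' ∧ b.val ≤ b' := by
  unfold Bx pt
  constructor
  · rintro ⟨h0, h1, -⟩
    exact ⟨by simpa using h0, by simpa using h1⟩
  · rintro ⟨h0, h1⟩
    refine ⟨by simpa using h0, by simpa using h1, fun i hi => ?_⟩
    have e0 : i.val ≠ 0 := by omega
    have e1 : i.val ≠ 1 := by omega
    simp [e0, e1]

/-- a down-set `D` contains everything below `(a, b, 0, ..., 0)` -/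
def Cor (D : P3 (p + 2) (r + 3)) (a b : ℕ) : Prop := ∀ g, Bx g a b → g ∈ D

theorem cor_of {D : P3 (p + 2) (r + 3)} {f : Fin (p + 2) → Fin (r + 3)} (hf : f ∈ D) {a b : ℕ}
    (ha : a ≤ (f 0).val) (hb : b ≤ (f 1).val) : Cor D a b := by
  rintro g ⟨h0, h1, h2⟩
  refine D.lower ?_ hf
  intro i
  rcases Nat.lt_or_ge i.val 2 with h | h
  · have : i = 0 ∨ i = 1 := by
      rcases (by omega : i.val = 0 ∨ i.val = 1) with h | h
      · left; exact Fin.ext h
      · right; exact Fin.ext h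
    rcases this with rfl | rfl
    · exact Fin.le_def.mpr (h0.trans ha)
    · exact Fin.le_def.mpr (h1.trans hb)
  · have := h2 i h
    exact Fin.le_def.mpr (by omega)

/-! ### the partitions in the `3 × 3` box that occur -/

def l111 : P3 (p + 2) (r + 3) := bx 2 0
def l211 : P3 (p + 2) (r + 3) := bx 2 0 ⊔ bx 0 1
def l300 : P3 (p + 2) (r + 3) := bx 0 2
def l310 : P3 (p + 2) (r + 3) := bx 0 2 ⊔ bx 1 0
def l220 : P3 (p + 2) (r + 3) := bx 1 1
def l311 : P3 (p + 2) (r + 3) := bx 0 2 ⊔ bx 2 0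
def l320 : P3 (p + 2) (r + 3) := bx 0 2 ⊔ bx 1 1
def l330 : P3 (p + 2) (r + 3) := bx 1 2
def l221 : P3 (p + 2) (r + 3) := bx 1 1 ⊔ bx 2 0
def l222 : P3 (p + 2) (r + 3) := bx 2 1

theorem not_le_of_pt {D E : P3 (p + 2) (r + 3)} (a b : Fin 3) (h : pt a b ∈ D)
    (h' : pt a b ∉ E) : ¬ D ≤ E := fun hle => h' (hle h)

/-! ### the eleven elements of `J(J([n]^q))` -/

open LowerSet in
def X1 : P4 (p + 2) (r + 3) := Iic l310
open LowerSet in
def X2 : P4 (p + 2) (r + 3) := Iic l310 ⊔ Iic l111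
open LowerSet in
def X3 : P4 (p + 2) (r + 3) := Iic l211
open LowerSet in
def X4 : P4 (p + 2) (r + 3) := Iic l300 ⊔ Iic l211
open LowerSet in
def X5 : P4 (p + 2) (r + 3) := Iic l310 ⊔ Iic l211
open LowerSet in
def X6 : P4 (p + 2) (r + 3) := Iic l310 ⊔ Iic l220 ⊔ Iic l211
open LowerSet in
def X7 : P4 (p + 2) (r + 3) := Iic l220 ⊔ Iic l311
open LowerSet in
def X8 : P4 (p + 2) (r + 3) := Iic l320 ⊔ Iic l311
open LowerSet in
def X9 : P4 (p + 2) (r + 3) := Iic l330 ⊔ Iic l311
open LowerSet in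
def X10 : P4 (p + 2) (r + 3) := Iic l311 ⊔ Iic l221
open LowerSet in
def X11 : P4 (p + 2) (r + 3) := Iic l311 ⊔ Iic l222

theorem mem_X1 {D : P3 (p + 2) (r + 3)} : D ∈ X1 (p := p) (r := r) ↔ D ≤ l310 := by
  simp [X1]
theorem mem_X2 {D : P3 (p + 2) (r + 3)} : D ∈ X2 (p := p) (r := r) ↔ D ≤ l310 ∨ D ≤ l111 := by
  simp [X2]
theorem mem_X3 {D : P3 (p + 2) (r + 3)} : D ∈ X3 (p := p) (r := r) ↔ D ≤ l211 := by
  simp [X3]
theorem mem_X4 {D : P3 (p + 2) (r + 3)} : D ∈ X4 (p := p) (r := r) ↔ D ≤ l300 ∨ D ≤ l211 := by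
  simp [X4]
theorem mem_X5 {D : P3 (p + 2) (r + 3)} : D ∈ X5 (p := p) (r := r) ↔ D ≤ l310 ∨ D ≤ l211 := by
  simp [X5]
theorem mem_X6 {D : P3 (p + 2) (r + 3)} :
    D ∈ X6 (p := p) (r := r) ↔ (D ≤ l310 ∨ D ≤ l220) ∨ D ≤ l211 := by
  simp [X6]
theorem mem_X7 {D : P3 (p + 2) (r + 3)} : D ∈ X7 (p := p) (r := r) ↔ D ≤ l220 ∨ D ≤ l311 := by
  simp [X7]
theorem mem_X8 {D : P3 (p + 2) (r + 3)} : D ∈ X8 (p := p) (r := r) ↔ D ≤ l320 ∨ D ≤ l311 := by
  simp [X8]
theorem mem_X9 {D : P3 (p + 2) (r + 3)} : D ∈ X9 (p := p) (r := r) ↔ D ≤ l330 ∨ D ≤ l311 := by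
  simp [X9]
theorem mem_X10 {D : P3 (p + 2) (r + 3)} : D ∈ X10 (p := p) (r := r) ↔ D ≤ l311 ∨ D ≤ l221 := by
  simp [X10]
theorem mem_X11 {D : P3 (p + 2) (r + 3)} : D ∈ X11 (p := p) (r := r) ↔ D ≤ l311 ∨ D ≤ l222 := by
  simp [X11]

theorem le_310_311 : l310 (p := p) (r := r) ≤ l311 :=
  sup_le (le_sup_of_le_left (bx_mono (by decide) (by decide)))
    (le_sup_of_le_right (bx_mono (by decide) (by decide)))
theorem le_211_311 : l211 (p := p) (r := r) ≤ l311 :=
  sup_le (le_sup_of_le_right (bx_mono (by decide) (by decide)))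
    (le_sup_of_le_left (bx_mono (by decide) (by decide)))
theorem le_300_310 : l300 (p := p) (r := r) ≤ l310 :=
  le_sup_of_le_left (bx_mono (by decide) (by decide))
theorem le_111_211 : l111 (p := p) (r := r) ≤ l211 :=
  le_sup_of_le_left (bx_mono (by decide) (by decide))
theorem le_220_320 : l220 (p := p) (r := r) ≤ l320 :=
  le_sup_of_le_right (bx_mono (by decide) (by decide))
theorem le_320_330 : l320 (p := p) (r := r) ≤ l330 :=
  sup_le (bx_mono (by decide) (by decide)) (bx_mono (by decide) (by decide))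
theorem le_220_221 : l220 (p := p) (r := r) ≤ l221 :=
  le_sup_of_le_left (bx_mono (by decide) (by decide))
theorem le_221_222 : l221 (p := p) (r := r) ≤ l222 :=
  sup_le (bx_mono (by decide) (by decide)) (bx_mono (by decide) (by decide))


theorem X12 : X1 (p := p) (r := r) ≤ X2 ∧ ¬ X2 (p := p) (r := r) ≤ X1 := by
  refine ⟨fun D h => ?_, fun h => ?_⟩
  · have h := mem_X1.mp h
    exact mem_X2.mpr (Or.inl h)
  · have h1 := mem_X1.mp (h (mem_X2.mpr (Or.inr le_rfl)))
    exact not_le_of_pt 2 0 (by simp [l111, mem_bx, bx_pt]) (by simp [l310, mem_bx, bx_pt]) h1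

theorem X25 : X2 (p := p) (r := r) ≤ X5 ∧ ¬ X5 (p := p) (r := r) ≤ X2 := by
  refine ⟨fun D h => ?_, fun h => ?_⟩
  · rcases mem_X2.mp h with h | h
    · exact mem_X5.mpr (Or.inl h)
    · exact mem_X5.mpr (Or.inr (h.trans le_111_211))
  · rcases mem_X2.mp (h (mem_X5.mpr (Or.inr le_rfl))) with h1 | h1
    · exact not_le_of_pt 2 0 (by simp [l211, mem_bx, bx_pt]) (by simp [l310, mem_bx, bx_pt]) h1
    · exact not_le_of_pt 0 1 (by simp [l211, mem_bx, bx_pt]) (by simp [l111, mem_bx, bx_pt]) h1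

theorem X34 : X3 (p := p) (r := r) ≤ X4 ∧ ¬ X4 (p := p) (r := r) ≤ X3 := by
  refine ⟨fun D h => ?_, fun h => ?_⟩
  · exact mem_X4.mpr (Or.inr (mem_X3.mp h))
  · have h1 := mem_X3.mp (h (mem_X4.mpr (Or.inl le_rfl)))
    exact not_le_of_pt 0 2 (by simp [l300, mem_bx, bx_pt]) (by simp [l211, mem_bx, bx_pt]) h1

theorem X45 : X4 (p := p) (r := r) ≤ X5 ∧ ¬ X5 (p := p) (r := r) ≤ X4 := by
  refine ⟨fun D h => ?_, fun h => ?_⟩
  · rcases mem_X4.mp h with h | h
    · exact mem_X5.mpr (Or.inl (h.trans le_300_310))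
    · exact mem_X5.mpr (Or.inr h)
  · rcases mem_X4.mp (h (mem_X5.mpr (Or.inl le_rfl))) with h1 | h1
    · exact not_le_of_pt 1 0 (by simp [l310, mem_bx, bx_pt]) (by simp [l300, mem_bx, bx_pt]) h1
    · exact not_le_of_pt 0 2 (by simp [l310, mem_bx, bx_pt]) (by simp [l211, mem_bx, bx_pt]) h1

theorem X56 : X5 (p := p) (r := r) ≤ X6 ∧ ¬ X6 (p := p) (r := r) ≤ X5 := by
  refine ⟨fun D h => ?_, fun h => ?_⟩
  · rcases mem_X5.mp h with h | h
    · exact mem_X6.mpr (Or.inl (Or.inl h))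
    · exact mem_X6.mpr (Or.inr h)
  · rcases mem_X5.mp (h (mem_X6.mpr (Or.inl (Or.inr le_rfl)))) with h1 | h1
    · exact not_le_of_pt 1 1 (by simp [l220, mem_bx, bx_pt]) (by simp [l310, mem_bx, bx_pt]) h1
    · exact not_le_of_pt 1 1 (by simp [l220, mem_bx, bx_pt]) (by simp [l211, mem_bx, bx_pt]) h1

theorem X67 : X6 (p := p) (r := r) ≤ X7 ∧ ¬ X7 (p := p) (r := r) ≤ X6 := by
  refine ⟨fun D h => ?_, fun h => ?_⟩
  · rcases mem_X6.mp h with (h | h) | h
    · exact mem_X7.mpr (Or.inr (h.trans le_310_311))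
    · exact mem_X7.mpr (Or.inl h)
    · exact mem_X7.mpr (Or.inr (h.trans le_211_311))
  · rcases mem_X6.mp (h (mem_X7.mpr (Or.inr le_rfl))) with (h1 | h1) | h1
    · exact not_le_of_pt 2 0 (by simp [l311, mem_bx, bx_pt]) (by simp [l310, mem_bx, bx_pt]) h1
    · exact not_le_of_pt 2 0 (by simp [l311, mem_bx, bx_pt]) (by simp [l220, mem_bx, bx_pt]) h1
    · exact not_le_of_pt 0 2 (by simp [l311, mem_bx, bx_pt]) (by simp [l211, mem_bx, bx_pt]) h1

theorem X78 : X7 (p := p) (r := r) ≤ X8 ∧ ¬ X8 (p := p) (r := r) ≤ X7 := by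
  refine ⟨fun D h => ?_, fun h => ?_⟩
  · rcases mem_X7.mp h with h | h
    · exact mem_X8.mpr (Or.inl (h.trans le_220_320))
    · exact mem_X8.mpr (Or.inr h)
  · rcases mem_X7.mp (h (mem_X8.mpr (Or.inl le_rfl))) with h1 | h1
    · exact not_le_of_pt 0 2 (by simp [l320, mem_bx, bx_pt]) (by simp [l220, mem_bx, bx_pt]) h1
    · exact not_le_of_pt 1 1 (by simp [l320, mem_bx, bx_pt]) (by simp [l311, mem_bx, bx_pt]) h1

theorem X89 : X8 (p := p) (r := r) ≤ X9 ∧ ¬ X9 (p := p) (r := r) ≤ X8 := by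
  refine ⟨fun D h => ?_, fun h => ?_⟩
  · rcases mem_X8.mp h with h | h
    · exact mem_X9.mpr (Or.inl (h.trans le_320_330))
    · exact mem_X9.mpr (Or.inr h)
  · rcases mem_X8.mp (h (mem_X9.mpr (Or.inl le_rfl))) with h1 | h1
    · exact not_le_of_pt 1 2 (by simp [l330, mem_bx, bx_pt]) (by simp [l320, mem_bx, bx_pt]) h1
    · exact not_le_of_pt 1 2 (by simp [l330, mem_bx, bx_pt]) (by simp [l311, mem_bx, bx_pt]) h1

theorem X710 : X7 (p := p) (r := r) ≤ X10 ∧ ¬ X10 (p := p) (r := r) ≤ X7 := by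
  refine ⟨fun D h => ?_, fun h => ?_⟩
  · rcases mem_X7.mp h with h | h
    · exact mem_X10.mpr (Or.inr (h.trans le_220_221))
    · exact mem_X10.mpr (Or.inl h)
  · rcases mem_X7.mp (h (mem_X10.mpr (Or.inr le_rfl))) with h1 | h1
    · exact not_le_of_pt 2 0 (by simp [l221, mem_bx, bx_pt]) (by simp [l220, mem_bx, bx_pt]) h1
    · exact not_le_of_pt 1 1 (by simp [l221, mem_bx, bx_pt]) (by simp [l311, mem_bx, bx_pt]) h1

theorem X1011 : X10 (p := p) (r := r) ≤ X11 ∧ ¬ X11 (p := p) (r := r) ≤ X10 := by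
  refine ⟨fun D h => ?_, fun h => ?_⟩
  · rcases mem_X10.mp h with h | h
    · exact mem_X11.mpr (Or.inl h)
    · exact mem_X11.mpr (Or.inr (h.trans le_221_222))
  · rcases mem_X10.mp (h (mem_X11.mpr (Or.inr le_rfl))) with h1 | h1
    · exact not_le_of_pt 2 1 (by simp [l222, mem_bx, bx_pt]) (by simp [l311, mem_bx, bx_pt]) h1
    · exact not_le_of_pt 2 1 (by simp [l222, mem_bx, bx_pt]) (by simp [l221, mem_bx, bx_pt]) h1

/-! ### consequences of transitivity -/

theorem transitive_five {N q : ℕ} {c : Finset (Fin N) → Fin q} (hT : IsTransitive 4 c)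
    {v w x y z : Fin N} (h1 : v < w) (h2 : w < x) (h3 : x < y) (h4 : y < z) {i : Fin q}
    (hF : c {v, w, x, y} = i) (hL : c {w, x, y, z} = i) :
    c {v, x, y, z} = i ∧ c {v, w, y, z} = i ∧ c {v, w, x, z} = i := by
  have hmono : StrictMono (![v, w, x, y, z] : Fin (4 + 1) → Fin N) := by
    rw [Fin.strictMono_iff_lt_succ]
    intro i
    fin_cases i
    · exact h1
    · exact h2
    · exact h3
    · exact h4
  have key := hT ![v, w, x, y, z] hmono i (by
      rw [window_four _ 0 (by decide)]; exact hF) (by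
      rw [window_four _ 1 (by decide)]; exact hL)
  have hcard : ∀ a b d e : Fin N, a < b → b < d → d < e →
      ({a, b, d, e} : Finset (Fin N)).card = 4 := by
    intro a b d e hab hbd hde
    rw [Finset.card_insert_of_notMem, Finset.card_insert_of_notMem, Finset.card_insert_of_notMem,
      Finset.card_singleton]
    · simp only [Finset.mem_singleton]; exact hde.ne
    · simp only [Finset.mem_insert, Finset.mem_singleton, not_or]
      exact ⟨hbd.ne, (hbd.trans hde).ne⟩
    · simp only [Finset.mem_insert, Finset.mem_singleton, not_or]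
      exact ⟨hab.ne, (hab.trans hbd).ne, (hab.trans (hbd.trans hde)).ne⟩
  have himg : ∀ a : Fin N, a = v ∨ a = w ∨ a = x ∨ a = y ∨ a = z →
      a ∈ Finset.univ.image (![v, w, x, y, z] : Fin (4 + 1) → Fin N) := by
    intro a ha
    rw [Finset.mem_image]
    rcases ha with rfl | rfl | rfl | rfl | rfl
    · exact ⟨0, Finset.mem_univ _, rfl⟩
    · exact ⟨1, Finset.mem_univ _, rfl⟩
    · exact ⟨2, Finset.mem_univ _, rfl⟩
    · exact ⟨3, Finset.mem_univ _, rfl⟩
    · exact ⟨4, Finset.mem_univ _, rfl⟩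
  refine ⟨key _ ?_ (hcard _ _ _ _ (h1.trans h2) h3 h4), key _ ?_ (hcard _ _ _ _ h1 (h2.trans h3) h4),
    key _ ?_ (hcard _ _ _ _ h1 h2 (h3.trans h4))⟩
  all_goals
    intro a ha
    apply himg
    simp only [Finset.mem_insert, Finset.mem_singleton] at ha
    tauto

/-! ### facts about the down-sets attached to the pairs -/

theorem cor_of_le {D E F : P3 (p + 2) (r + 3)} (h1 : D ≤ E) (h2 : ¬ D ≤ F) {a b : ℕ}
    (h : ∀ f, f ∈ E → f ∉ F → a ≤ (f 0).val ∧ b ≤ (f 1).val) : Cor D a b := by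
  have h3 : ¬ ((D : Set (Fin (p + 2) → Fin (r + 3))) ⊆ F) := h2
  rw [Set.not_subset] at h3
  obtain ⟨f, hf, hf'⟩ := h3
  have h4 := h f (h1 hf) hf'
  exact cor_of hf h4.1 h4.2

theorem D12 {D : P3 (p + 2) (r + 3)} (h : D ∈ X2 (p := p) (r := r))
    (h' : D ∉ X1 (p := p) (r := r)) : Cor D 2 0 := by
  rw [mem_X2] at h; rw [mem_X1] at h'
  refine cor_of_le (h.resolve_left h') h' ?_
  intro f hf hf'
  simp only [l111, l310, LowerSet.mem_sup_iff, mem_bx, Bx, not_or] at hf hf'
  obtain ⟨f0, f1, f2⟩ := hf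
  have := hf'.2
  constructor
  · by_contra hlt
    exact this ⟨by omega, f1, f2⟩
  · exact Nat.zero_le _

theorem D34 {D : P3 (p + 2) (r + 3)} (h : D ∈ X4 (p := p) (r := r))
    (h' : D ∉ X3 (p := p) (r := r)) : Cor D 0 2 := by
  rw [mem_X4] at h; rw [mem_X3] at h'
  refine cor_of_le (h.resolve_right h') h' ?_
  intro f hf hf'
  simp only [l300, l211, LowerSet.mem_sup_iff, mem_bx, Bx, not_or] at hf hf'
  obtain ⟨f0, f1, f2⟩ := hf
  refine ⟨Nat.zero_le _, ?_⟩
  by_contra hlt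
  exact hf'.2 ⟨f0, by omega, f2⟩

theorem D25 {D : P3 (p + 2) (r + 3)} (h : D ∈ X5 (p := p) (r := r))
    (h' : D ∉ X2 (p := p) (r := r)) : Cor D 2 0 := by
  rw [mem_X5] at h; rw [mem_X2, not_or] at h'
  refine cor_of_le (h.resolve_left h'.1) h'.1 ?_
  intro f hf hf'
  simp only [l211, l310, LowerSet.mem_sup_iff, mem_bx, Bx, not_or] at hf hf'
  refine ⟨?_, Nat.zero_le _⟩
  by_contra hlt
  rcases hf with ⟨f0, f1, f2⟩ | ⟨f0, f1, f2⟩
  · exact hf'.2 ⟨by omega, f1, f2⟩
  · exact hf'.1 ⟨f0, by omega, f2⟩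

theorem D45 {D : P3 (p + 2) (r + 3)} (h : D ∈ X5 (p := p) (r := r))
    (h' : D ∉ X4 (p := p) (r := r)) : Cor D 0 2 := by
  rw [mem_X5] at h; rw [mem_X4, not_or] at h'
  refine cor_of_le (h.resolve_right h'.2) h'.2 ?_
  intro f hf hf'
  simp only [l211, l310, LowerSet.mem_sup_iff, mem_bx, Bx, not_or] at hf hf'
  refine ⟨Nat.zero_le _, ?_⟩
  by_contra hlt
  rcases hf with ⟨f0, f1, f2⟩ | ⟨f0, f1, f2⟩
  · exact hf'.2 ⟨f0, by omega, f2⟩
  · exact hf'.1 ⟨by omega, f1, f2⟩

theorem D67 {D : P3 (p + 2) (r + 3)} (h : D ∈ X7 (p := p) (r := r))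
    (h' : D ∉ X6 (p := p) (r := r)) : D ≤ l311 ∧ Cor D 0 2 ∧ Cor D 2 0 := by
  rw [mem_X7] at h; rw [mem_X6, not_or, not_or] at h'
  have hle := h.resolve_left h'.1.2
  refine ⟨hle, cor_of_le hle h'.2 ?_, cor_of_le hle h'.1.1 ?_⟩
  · intro f hf hf'
    simp only [l211, l311, LowerSet.mem_sup_iff, mem_bx, Bx, not_or] at hf hf'
    refine ⟨Nat.zero_le _, ?_⟩
    by_contra hlt
    rcases hf with ⟨f0, f1, f2⟩ | ⟨f0, f1, f2⟩
    · exact hf'.2 ⟨f0, by omega, f2⟩
    · exact hf'.1 ⟨by omega, f1, f2⟩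
  · intro f hf hf'
    simp only [l310, l311, LowerSet.mem_sup_iff, mem_bx, Bx, not_or] at hf hf'
    refine ⟨?_, Nat.zero_le _⟩
    by_contra hlt
    rcases hf with ⟨f0, f1, f2⟩ | ⟨f0, f1, f2⟩
    · exact hf'.1 ⟨f0, by omega, f2⟩
    · exact hf'.2 ⟨by omega, f1, f2⟩

theorem D56 {D : P3 (p + 2) (r + 3)} (h : D ∈ X6 (p := p) (r := r))
    (h' : D ∉ X5 (p := p) (r := r)) : D ≤ l220 := by
  rw [mem_X6] at h; rw [mem_X5] at h'
  exact (h.resolve_right fun x => h' (Or.inr x)).resolve_left fun x => h' (Or.inl x)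

theorem D78 {D : P3 (p + 2) (r + 3)} (h : D ∈ X8 (p := p) (r := r))
    (h' : D ∉ X7 (p := p) (r := r)) : D ≤ l320 := by
  rw [mem_X8] at h; rw [mem_X7] at h'
  exact h.resolve_right fun x => h' (Or.inr x)

theorem D89 {D : P3 (p + 2) (r + 3)} (h : D ∈ X9 (p := p) (r := r))
    (h' : D ∉ X8 (p := p) (r := r)) : D ≤ l330 := by
  rw [mem_X9] at h; rw [mem_X8] at h'
  exact h.resolve_right fun x => h' (Or.inr x)

theorem D710 {D : P3 (p + 2) (r + 3)} (h : D ∈ X10 (p := p) (r := r))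
    (h' : D ∉ X7 (p := p) (r := r)) : D ≤ l221 := by
  rw [mem_X10] at h; rw [mem_X7] at h'
  exact h.resolve_left fun x => h' (Or.inr x)

theorem D1011 {D : P3 (p + 2) (r + 3)} (h : D ∈ X11 (p := p) (r := r))
    (h' : D ∉ X10 (p := p) (r := r)) : D ≤ l222 := by
  rw [mem_X11] at h; rw [mem_X10] at h'
  exact h.resolve_left fun x => h' (Or.inl x)

/-- the rest of the coordinates vanish -/
def Rz (f : Fin (p + 2) → Fin (r + 3)) : Prop := ∀ i : Fin (p + 2), 2 ≤ i.val → (f i).val = 0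

theorem col_cases {N : ℕ} {c : Finset (Fin N) → Fin (p + 2)}
    (hno : ¬ HasMonoPath 4 (r + 3) c) {w x y z : Fin N} (hwx : w < x) (hxy : x < y) (hyz : y < z)
    (hR : Rz (lab c (n := r + 3) (by omega) x y z)) :
    (c {w, x, y, z} = 0 ∧ (lab c (n := r + 3) (by omega) w x y 0).val <
      (lab c (n := r + 3) (by omega) x y z 0).val) ∨
    (c {w, x, y, z} = 1 ∧ (lab c (n := r + 3) (by omega) w x y 1).val <
      (lab c (n := r + 3) (by omega) x y z 1).val) := by
  have h1 : (lab c (n := r + 3) (by omega) w x y (c {w, x, y, z})).val <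
      (lab c (n := r + 3) (by omega) x y z (c {w, x, y, z})).val :=
    len_lt_len (n := r + 3) (by omega) hno hwx hxy hyz
  generalize c {w, x, y, z} = i at h1
  rcases Nat.lt_or_ge i.val 2 with h | h
  · rcases (by omega : i.val = 0 ∨ i.val = 1) with h | h
    · have : i = 0 := Fin.ext h
      subst this; exact Or.inl ⟨rfl, h1⟩
    · have : i = 1 := Fin.ext h
      subst this; exact Or.inr ⟨rfl, h1⟩
  · have := hR i h
    omega

/-- A transitive colouring on `|J(J([n]^q))|` vertices has a monochromatic monotone path of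
length `n` (`q = p + 2`, `n = r + 3`). -/
theorem transitive_has_path (p r : ℕ)
    (c : Finset (Fin (Nat.card (P4 (p + 2) (r + 3)))) → Fin (p + 2)) (hT : IsTransitive 4 c) :
    HasMonoPath 4 (r + 3) c := by
  by_contra hno
  have hn : 1 ≤ r + 3 := by omega
  have hinj := ddd_injective hn hno
  have hbij : Function.Bijective (ddd c hn) := by
    rw [Nat.bijective_iff_injective_and_card]
    exact ⟨hinj, by rw [Nat.card_eq_fintype_card, Fintype.card_fin]⟩
  have hsurj := hbij.2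
  obtain ⟨x1, e1⟩ := hsurj X1
  obtain ⟨x2, e2⟩ := hsurj X2
  obtain ⟨x3, e3⟩ := hsurj X3
  obtain ⟨x4, e4⟩ := hsurj X4
  obtain ⟨x5, e5⟩ := hsurj X5
  obtain ⟨x6, e6⟩ := hsurj X6
  obtain ⟨x7, e7⟩ := hsurj X7
  obtain ⟨x8, e8⟩ := hsurj X8
  obtain ⟨x9, e9⟩ := hsurj X9
  obtain ⟨x10, e10⟩ := hsurj X10
  obtain ⟨x11, e11⟩ := hsurj X11
  have hlt : ∀ {x y : Fin (Nat.card (P4 (p + 2) (r + 3)))} {X Y : P4 (p + 2) (r + 3)},
      ddd c hn x = X → ddd c hn y = Y → X ≤ Y ∧ ¬ Y ≤ X → x < y := by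
    intro x y X Y hx hy hXY
    rcases lt_trichotomy x y with h | h | h
    · exact h
    · subst h; rw [← hx, ← hy] at hXY; exact absurd le_rfl hXY.2
    · exact absurd (by rw [hx, hy]; exact hXY.1) (ddd_not_le hn hno h)
  have o12 := hlt e1 e2 X12
  have o25 := hlt e2 e5 X25
  have o34 := hlt e3 e4 X34
  have o45 := hlt e4 e5 X45
  have o56 := hlt e5 e6 X56
  have o67 := hlt e6 e7 X67
  have o78 := hlt e7 e8 X78
  have o89 := hlt e8 e9 X89
  have o710 := hlt e7 e10 X710
  have o1011 := hlt e10 e11 X1011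
  have o57 := o56.trans o67
  -- pair facts
  have d12 : Cor (dd c hn x1 x2) 2 0 :=
    D12 (by rw [← e2]; exact dd_mem_ddd c hn o12) (by rw [← e1]; exact dd_not_mem_ddd hn hno o12)
  have d34 : Cor (dd c hn x3 x4) 0 2 :=
    D34 (by rw [← e4]; exact dd_mem_ddd c hn o34) (by rw [← e3]; exact dd_not_mem_ddd hn hno o34)
  have m25 : dd c hn x2 x5 ∈ X5 := by rw [← e5]; exact dd_mem_ddd c hn o25
  have n25 : dd c hn x2 x5 ∉ X2 := by rw [← e2]; exact dd_not_mem_ddd hn hno o25
  have m45 : dd c hn x4 x5 ∈ X5 := by rw [← e5]; exact dd_mem_ddd c hn o45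
  have n45 : dd c hn x4 x5 ∉ X4 := by rw [← e4]; exact dd_not_mem_ddd hn hno o45
  have d25 := D25 m25 n25
  have d45 := D45 m45 n45
  have d25' : dd c hn x2 x5 ≤ l211 := by
    rw [mem_X5] at m25; rw [mem_X2] at n25
    exact m25.resolve_left fun x => n25 (Or.inl x)
  have d45' : dd c hn x4 x5 ≤ l310 := by
    rw [mem_X5] at m45; rw [mem_X4] at n45
    exact m45.resolve_right fun x => n45 (Or.inr x)
  have d56 := D56 (by rw [← e6]; exact dd_mem_ddd c hn o56)
    (by rw [← e5]; exact dd_not_mem_ddd hn hno o56)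
  obtain ⟨d67, d67a, d67b⟩ := D67 (by rw [← e7]; exact dd_mem_ddd c hn o67)
    (by rw [← e6]; exact dd_not_mem_ddd hn hno o67)
  have d78 := D78 (by rw [← e8]; exact dd_mem_ddd c hn o78)
    (by rw [← e7]; exact dd_not_mem_ddd hn hno o78)
  have d89 := D89 (by rw [← e9]; exact dd_mem_ddd c hn o89)
    (by rw [← e8]; exact dd_not_mem_ddd hn hno o89)
  have d710 := D710 (by rw [← e10]; exact dd_mem_ddd c hn o710)
    (by rw [← e7]; exact dd_not_mem_ddd hn hno o710)
  have d1011 := D1011 (by rw [← e11]; exact dd_mem_ddd c hn o1011)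
    (by rw [← e10]; exact dd_not_mem_ddd hn hno o1011)
  have d57 : dd c hn x5 x7 ≤ l220 ∨ dd c hn x5 x7 ≤ l311 :=
    mem_X7.mp (by rw [← e7]; exact dd_mem_ddd c hn o57)
  -- label facts
  have f125 : 1 ≤ (lab c hn x1 x2 x5 1).val := by
    have h1 := d25' (lab_mem_dd c hn x5 o12)
    have h2 : ¬ Bx (lab c hn x1 x2 x5) 2 0 := fun h => lab_not_mem_dd hn hno o12 o25 (d12 _ h)
    simp only [l211, LowerSet.mem_sup_iff, SetLike.mem_coe, mem_bx, Bx] at h1 h2
    by_contra hlt
    rcases h1 with ⟨a, b, e⟩ | ⟨a, b, e⟩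
    · exact h2 ⟨a, b, e⟩
    · exact h2 ⟨by omega, by omega, e⟩
  have f256 : (lab c hn x2 x5 x6 1).val ≤ 1 ∧ Rz (lab c hn x2 x5 x6) := by
    have h1 := d56 (lab_mem_dd c hn x6 o25)
    simp only [l220, SetLike.mem_coe, mem_bx, Bx] at h1
    exact ⟨h1.2.1, h1.2.2⟩
  have f345 : 1 ≤ (lab c hn x3 x4 x5 0).val := by
    have h1 := d45' (lab_mem_dd c hn x5 o34)
    have h2 : ¬ Bx (lab c hn x3 x4 x5) 0 2 := fun h => lab_not_mem_dd hn hno o34 o45 (d34 _ h)
    simp only [l310, LowerSet.mem_sup_iff, SetLike.mem_coe, mem_bx, Bx] at h1 h2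
    by_contra hlt
    rcases h1 with ⟨a, b, e⟩ | ⟨a, b, e⟩
    · exact h2 ⟨a, b, e⟩
    · exact h2 ⟨by omega, by omega, e⟩
  have f456 : (lab c hn x4 x5 x6 0).val ≤ 1 ∧ Rz (lab c hn x4 x5 x6) := by
    have h1 := d56 (lab_mem_dd c hn x6 o45)
    simp only [l220, SetLike.mem_coe, mem_bx, Bx] at h1
    exact ⟨h1.1, h1.2.2⟩
  have f678 : (lab c hn x6 x7 x8 0).val = 1 ∧ Rz (lab c hn x6 x7 x8) := by
    have h1 := d78 (lab_mem_dd c hn x8 o67)
    have h2 : ¬ Bx (lab c hn x6 x7 x8) 0 2 := fun h => lab_not_mem_dd hn hno o67 o78 (d67a _ h)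
    have h3 : ¬ Bx (lab c hn x6 x7 x8) 2 0 := fun h => lab_not_mem_dd hn hno o67 o78 (d67b _ h)
    simp only [l320, LowerSet.mem_sup_iff, SetLike.mem_coe, mem_bx, Bx] at h1 h2 h3
    rcases h1 with ⟨a, b, e⟩ | ⟨a, b, e⟩
    · exact absurd ⟨a, b, e⟩ h2
    · refine ⟨?_, e⟩
      by_contra hlt
      exact h2 ⟨by omega, by omega, e⟩
  have f6710 : 1 ≤ (lab c hn x6 x7 x10 1).val ∧ Rz (lab c hn x6 x7 x10) := by
    have h1 := d710 (lab_mem_dd c hn x10 o67)
    have h3 : ¬ Bx (lab c hn x6 x7 x10) 2 0 := fun h => lab_not_mem_dd hn hno o67 o710 (d67b _ h)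
    simp only [l221, LowerSet.mem_sup_iff, SetLike.mem_coe, mem_bx, Bx] at h1 h3
    rcases h1 with ⟨a, b, e⟩ | ⟨a, b, e⟩
    · refine ⟨?_, e⟩
      by_contra hlt
      exact h3 ⟨by omega, by omega, e⟩
    · exact absurd ⟨a, b, e⟩ h3
  have f789 : (lab c hn x7 x8 x9 0).val ≤ 1 ∧ Rz (lab c hn x7 x8 x9) := by
    have h1 := d89 (lab_mem_dd c hn x9 o78)
    simp only [l330, SetLike.mem_coe, mem_bx, Bx] at h1
    exact ⟨h1.1, h1.2.2⟩
  have f71011 : (lab c hn x7 x10 x11 0).val ≤ 2 ∧ (lab c hn x7 x10 x11 1).val ≤ 1 ∧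
      Rz (lab c hn x7 x10 x11) := by
    have h1 := d1011 (lab_mem_dd c hn x11 o710)
    simp only [l222, SetLike.mem_coe, mem_bx, Bx] at h1
    exact h1
  have f567 : ((lab c hn x5 x6 x7 0).val = 0 ∨ (lab c hn x5 x6 x7 1).val = 0) ∧
      Rz (lab c hn x5 x6 x7) := by
    have h1 := d67 (lab_mem_dd c hn x7 o56)
    simp only [l311, LowerSet.mem_sup_iff, SetLike.mem_coe, mem_bx, Bx] at h1
    rcases h1 with ⟨a, b, e⟩ | ⟨a, b, e⟩
    · exact ⟨Or.inl (by omega), e⟩
    · exact ⟨Or.inr (by omega), e⟩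
  have f57 : ∀ x, x < x5 → (lab c hn x x5 x7 0).val ≤ 2 ∧ (lab c hn x x5 x7 1).val ≤ 2 ∧
      Rz (lab c hn x x5 x7) := by
    intro x hx
    have hm := lab_mem_dd c hn x7 hx
    rcases d57 with h | h
    · have h1 := h hm
      simp only [l220, SetLike.mem_coe, mem_bx, Bx] at h1
      exact ⟨by omega, by omega, h1.2.2⟩
    · have h1 := h hm
      simp only [l311, LowerSet.mem_sup_iff, SetLike.mem_coe, mem_bx, Bx] at h1
      rcases h1 with ⟨a, b, e⟩ | ⟨a, b, e⟩
      · exact ⟨by omega, by omega, e⟩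
      · exact ⟨by omega, by omega, e⟩
  have f457 : 1 ≤ (lab c hn x4 x5 x7 0).val := by
    have h2 : ¬ Bx (lab c hn x4 x5 x7) 0 2 := fun h => lab_not_mem_dd hn hno o45 o57 (d45 _ h)
    obtain ⟨a, b, e⟩ := f57 x4 o45
    by_contra hlt
    exact h2 ⟨by omega, by omega, e⟩
  have f257 : 1 ≤ (lab c hn x2 x5 x7 1).val := by
    have h2 : ¬ Bx (lab c hn x2 x5 x7) 2 0 := fun h => lab_not_mem_dd hn hno o25 o57 (d25 _ h)
    obtain ⟨a, b, e⟩ := f57 x2 o25
    by_contra hlt
    exact h2 ⟨by omega, by omega, e⟩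
  have f5710 : (lab c hn x5 x7 x10 1).val ≤ 1 ∧ Rz (lab c hn x5 x7 x10) := by
    have h1 := d710 (lab_mem_dd c hn x10 o57)
    simp only [l221, LowerSet.mem_sup_iff, SetLike.mem_coe, mem_bx, Bx] at h1
    rcases h1 with ⟨a, b, e⟩ | ⟨a, b, e⟩
    · exact ⟨by omega, e⟩
    · exact ⟨by omega, e⟩
  have f578 : (lab c hn x5 x7 x8 0).val ≤ 1 ∧ Rz (lab c hn x5 x7 x8) := by
    have h1 := d78 (lab_mem_dd c hn x8 o57)
    simp only [l320, LowerSet.mem_sup_iff, SetLike.mem_coe, mem_bx, Bx] at h1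
    rcases h1 with ⟨a, b, e⟩ | ⟨a, b, e⟩
    · exact ⟨by omega, e⟩
    · exact ⟨by omega, e⟩
  -- colours
  have k1256 : c {x1, x2, x5, x6} = 0 := by
    rcases col_cases hno o12 o25 o56 f256.2 with h | h
    · exact h.1
    · have := f256.1; omega
  have k3456 : c {x3, x4, x5, x6} = 1 := by
    rcases col_cases hno o34 o45 o56 f456.2 with h | h
    · have := f456.1; omega
    · exact h.1
  have k6789 : c {x6, x7, x8, x9} = 1 := by
    rcases col_cases hno o67 o78 o89 f789.2 with h | h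
    · have := f789.1; have := f678.1; omega
    · exact h.1
  have k671011 : c {x6, x7, x10, x11} = 0 := by
    rcases col_cases hno o67 o710 o1011 f71011.2.2 with h | h
    · exact h.1
    · have := f71011.2.1; have := f6710.1; omega
  rcases f567.1 with ha | hb
  · -- first case: the label of `(x5, x6, x7)` has first coordinate `0`
    have k4567 : c {x4, x5, x6, x7} = 1 := by
      rcases col_cases hno o45 o56 o67 f567.2 with h | h
      · omega
      · exact h.1
    have k3457 : c {x3, x4, x5, x7} = 1 := (transitive_five hT o34 o45 o56 o67 k3456 k4567).2.2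
    have g457 : 1 ≤ (lab c hn x4 x5 x7 1).val := by
      rcases col_cases hno o34 o45 o57 (f57 x4 o45).2.2 with h | h
      · rw [k3457] at h; exact absurd h.1 (by simp)
      · omega
    have k45710 : c {x4, x5, x7, x10} = 0 ∧ 2 ≤ (lab c hn x5 x7 x10 0).val := by
      rcases col_cases hno o45 o57 o710 f5710.2 with h | h
      · exact ⟨h.1, by omega⟩
      · have := f5710.1; omega
    have k56710 : c {x5, x6, x7, x10} = 0 := by
      rcases col_cases hno o56 o67 o710 f6710.2 with h | h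
      · exact h.1
      · have := (transitive_five hT o45 o56 o67 o710 k4567 h.1).2.1
        rw [k45710.1] at this; exact absurd this (by simp)
    have k571011 : c {x5, x7, x10, x11} = 0 :=
      (transitive_five hT o56 o67 o710 o1011 k56710 k671011).1
    rcases col_cases hno o57 o710 o1011 f71011.2.2 with h | h
    · have := f71011.1; omega
    · rw [k571011] at h; exact absurd h.1 (by simp)
  · -- second case: the label of `(x5, x6, x7)` has second coordinate `0`
    have k2567 : c {x2, x5, x6, x7} = 0 ∧ 1 ≤ (lab c hn x5 x6 x7 0).val := by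
      rcases col_cases hno o25 o56 o67 f567.2 with h | h
      · exact ⟨h.1, by omega⟩
      · omega
    have k1257 : c {x1, x2, x5, x7} = 0 := (transitive_five hT o12 o25 o56 o67 k1256 k2567.1).2.2
    have g257 : 1 ≤ (lab c hn x2 x5 x7 0).val := by
      rcases col_cases hno o12 o25 o57 (f57 x2 o25).2.2 with h | h
      · omega
      · rw [k1257] at h; exact absurd h.1 (by simp)
    have k5678 : c {x5, x6, x7, x8} = 1 := by
      rcases col_cases hno o56 o67 o78 f678.2 with h | h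
      · have := f678.1; omega
      · exact h.1
    have k5789 : c {x5, x7, x8, x9} = 1 := (transitive_five hT o56 o67 o78 o89 k5678 k6789).1
    have g578 : (lab c hn x5 x7 x8 1).val < (lab c hn x7 x8 x9 1).val := by
      rcases col_cases hno o57 o78 o89 f789.2 with h | h
      · rw [k5789] at h; exact absurd h.1 (by simp)
      · exact h.2
    have h789 : (lab c hn x7 x8 x9 1).val ≤ 2 := by
      have h1 := d89 (lab_mem_dd c hn x9 o78)
      simp only [l330, SetLike.mem_coe, mem_bx, Bx] at h1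
      exact h1.2.1
    rcases col_cases hno o25 o57 o78 f578.2 with h | h
    · have := f578.1; omega
    · omega

end Core

/-- `N'_4(q,n) ≤ |J(J([n]^q))|` for `q ≥ 2`, `n ≥ 3`. -/
theorem ramseyTrans_le (q n : ℕ) (hq : 2 ≤ q) (hn : 3 ≤ n) :
    ramseyTrans 4 q n ≤ Nat.card (P4 q n) := by
  obtain ⟨p, rfl⟩ : ∃ p, q = p + 2 := ⟨q - 2, by omega⟩
  obtain ⟨r, rfl⟩ : ∃ r, n = r + 3 := ⟨n - 3, by omega⟩
  exact Nat.sInf_le (transitive_has_path p r)

/-- For `k = 4`, all `q ≥ 2` and all `n ≥ 3`, the Ramsey number of monotone paths under transitive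
colourings is strictly smaller than the one for all colourings: `N'_4(q,n) < N_4(q,n)`. -/
theorem result : ∀ q n : ℕ, 2 ≤ q → 3 ≤ n → ramseyTrans 4 q n < ramseyAll 4 q n := by
  intro q n hq hn
  exact lt_of_le_of_lt (ramseyTrans_le q n hq hn)
    (card_lt_ramseyAll q n (by omega) (by omega))

end Pool.Agent.Results.MP_ea5a80_co.TransitiveRamseyLt
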